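import Mathlib

open Set MeasureTheory Cardinal Filter Topology

namespace Pool.Agent.Results.MP_4d4a97_an.Closed

/-- `InR a b f D g`: the function with domain `D` and values `g` (on `D`) lies in the smallest
class containing the `f i` on `(a, b)` and closed under rational combinations and composition. -/
inductive InR (a b : ℝ) {n : ℕ} (f : Fin n → ℝ → ℝ) : Set ℝ → (ℝ → ℝ) → Prop
  | base (i : Fin n) : InR a b f (Ioo a b) (f i)
  | rat (m : ℕ) (D : Fin m → Set ℝ) (g : Fin m → ℝ → ℝ) (P Q : MvPolynomial (Fin m) ℝ) :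
      (∀ j, InR a b f (D j) (g j)) →
      InR a b f
        {x | x ∈ Ioo a b ∧ (∀ j, x ∈ D j) ∧ MvPolynomial.eval (fun j => g j x) Q ≠ 0}
        (fun x => MvPolynomial.eval (fun j => g j x) P / MvPolynomial.eval (fun j => g j x) Q)
  | comp (D E : Set ℝ) (h k : ℝ → ℝ) : InR a b f D h → InR a b f E k →
      InR a b f {x | x ∈ E ∧ k x ∈ D} (fun x => h (k x))

noncomputable def φ (s : ℕ → Bool) : ℝ := cantorFunction (1 / 3) s

lemma φ_cont : Continuous φ := by
  unfold φ cantorFunction
  refine continuous_tsum (u := fun n => (1 / 3 : ℝ) ^ n) (fun n => ?_)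
    (summable_geometric_of_lt_one (by norm_num) (by norm_num)) (fun n s => ?_)
  · exact (continuous_of_discreteTopology (f := fun b : Bool => cond b ((1 / 3 : ℝ) ^ n) 0)).comp
      (continuous_apply n)
  · unfold cantorFunctionAux
    cases s n <;> simp

lemma φ_inj : Function.Injective φ := cantorFunction_injective (by norm_num) (by norm_num)

lemma φ_nonneg (s) : 0 ≤ φ s := tsum_nonneg fun _ => cantorFunctionAux_nonneg (by norm_num)

lemma φ_le (s) : φ s ≤ 3 / 2 := by
  have h := cantorFunction_le (c := 1 / 3) (f := s) (g := fun _ => true) (by norm_num)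
    (by norm_num) (fun _ _ => rfl)
  have h2 : cantorFunction (1 / 3) (fun _ => true) = (1 - 1 / 3)⁻¹ :=
    tsum_geometric_of_lt_one (by norm_num) (by norm_num)
  rw [h2] at h
  exact h.trans (by norm_num)

lemma aff_vol (K : Set ℝ) (c d : ℝ) (hc : 0 < c) :
    volume ((fun x => d + c * x) '' K) = ENNReal.ofReal c * volume K := by
  have : (fun x => d + c * x) '' K = (fun x => -d + x) ⁻¹' ((fun x => c⁻¹ * x) ⁻¹' K) := by
    ext y
    simp only [mem_image, mem_preimage]
    constructor
    · rintro ⟨x, hx, rfl⟩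
      rwa [neg_add_cancel_left, inv_mul_cancel_left₀ hc.ne']
    · intro h
      exact ⟨_, h, by rw [mul_inv_cancel_left₀ hc.ne']; ring⟩
  rw [this, measure_preimage_add, Real.volume_preimage_mul_left (inv_ne_zero hc.ne'),
    inv_inv, abs_of_pos hc]

lemma φ_null : volume (range φ) = 0 := by
  have h1 : range φ ⊆ (fun x => 0 + 1 / 3 * x) '' range φ ∪ (fun x => 1 + 1 / 3 * x) '' range φ := by
    rintro _ ⟨s, rfl⟩
    have := cantorFunction_succ (c := 1 / 3) s (by norm_num) (by norm_num)
    cases hs : s 0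
    · left; exact ⟨_, ⟨_, rfl⟩, by rw [hs] at this; exact this.symm⟩
    · right; exact ⟨_, ⟨_, rfl⟩, by rw [hs] at this; exact this.symm⟩
  have h2 := (measure_mono (μ := volume) h1).trans (measure_union_le _ _)
  rw [aff_vol _ _ _ (by norm_num), aff_vol _ _ _ (by norm_num)] at h2
  have h3 : volume (range φ) ≠ ⊤ := (isCompact_range φ_cont).measure_lt_top.ne
  lift volume (range φ) to NNReal using h3 with v hv
  rw [← ENNReal.ofReal_coe_nnreal, ← ENNReal.ofReal_mul (by norm_num),
    ← ENNReal.ofReal_add (by positivity) (by positivity),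
    ENNReal.ofReal_le_ofReal_iff (by positivity)] at h2
  have : (v : ℝ) = 0 := le_antisymm (by linarith) v.2
  exact_mod_cast this

/-- interleaving of two binary sequences -/
def il (s t : ℕ → Bool) (n : ℕ) : Bool := if n % 2 = 0 then s (n / 2) else t (n / 2)

lemma il_inj {s t s' t' : ℕ → Bool} (h : il s t = il s' t') : s = s' ∧ t = t' := by
  constructor <;> funext n
  · have := congrFun h (2 * n); simpa [il] using this
  · have := congrFun h (2 * n + 1)
    have h1 : (2 * n + 1) / 2 = n := by omega
    simpa [il, h1] using this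

lemma φ_il (s t : ℕ → Bool) :
    φ (il s t) = φ (il s fun _ => false) + φ (il (fun _ => false) t) := by
  unfold φ cantorFunction
  rw [← (summable_cantor_function _ (by norm_num) (by norm_num)).tsum_add
    (summable_cantor_function _ (by norm_num) (by norm_num))]
  congr 1; funext n
  unfold cantorFunctionAux il
  split_ifs <;> simp

theorem result (a b : ℝ) (hab : a < b) : ∃ f : Fin 2 → ℝ → ℝ,
    (∀ i, IntegrableOn (f i) (Ioo a b)) ∧
    ∀ (D : Set ℝ) (g : ℝ → ℝ), InR a b f D g → ∀ α β : ℝ, a ≤ α → α < β → β ≤ b →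
      (∀ᵐ x ∂(volume.restrict (Ioo α β)), x ∈ D) → IntegrableOn g (Ioo α β) →
      ∃ (E : Set ℝ) (h : ℝ → ℝ), InR a b f E h ∧ Ioo α β ⊆ E ∧
        ∀ x ∈ Ioo α β, h x = ∫ t in α..x, g t := by
  classical
  have hB : #(ℕ → Bool) = 𝔠 := by simp
  have e : ℝ ≃ᵐ (ℕ → Bool) := PolishSpace.measurableEquivOfNotCountable
    (not_countable) (by
      rw [← Cardinal.mk_le_aleph0_iff, hB]; exact not_le.2 aleph0_lt_continuum)
  obtain ⟨c⟩ : Nonempty ((ℚ → ℝ) ≃ (ℕ → Bool)) := by
    rw [← Cardinal.eq, hB]; simp [mk_real]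
  let ψ : ℝ → ℝ := fun y => (a + (b - a) / 3) + (b - a) / 3 * y
  have hd : 0 < (b - a) / 3 := by linarith
  let code : ℝ × (ℚ → ℝ) → ℝ := fun p => ψ (φ (il (e p.1) (c p.2)))
  have hcode : Function.Injective code := by
    rintro ⟨x, s⟩ ⟨x', s'⟩ h
    have h1 := il_inj (φ_inj (mul_left_cancel₀ hd.ne' (add_left_cancel h)))
    exact Prod.ext (e.injective h1.1) (c.injective h1.2)
  let F : ℝ × (ℚ → ℝ) → ℝ := fun p => limUnder (comap ((↑) : ℚ → ℝ) (𝓝 p.1)) p.2
  let U : ℝ → ℝ := Function.extend code F 0
  let k : ℝ → ℝ := fun x => φ (il (e x) fun _ => false)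
  refine ⟨![k, U], ?_, ?_⟩
  · intro i
    fin_cases i
    · have hm : Measurable k := by
        refine φ_cont.measurable.comp (measurable_pi_lambda _ fun n => ?_)
        unfold il
        split_ifs
        · exact (measurable_pi_apply _).comp e.measurable
        · exact measurable_const
      refine Measure.integrableOn_of_bounded (M := 3 / 2) (by simp) hm.aestronglyMeasurable
        (Eventually.of_forall fun x => ?_)
      show ‖φ _‖ ≤ _
      rw [Real.norm_of_nonneg (φ_nonneg _)]; exact φ_le _
    · have h0 : volume (ψ '' range φ) = 0 := by rw [aff_vol _ _ _ hd, φ_null, mul_zero]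
      have : U =ᵐ[volume] 0 := by
        refine measure_mono_null (fun y hy => ?_) h0
        by_contra hn
        apply hy
        refine Function.extend_apply' _ _ _ ?_
        rintro ⟨p, rfl⟩
        exact hn ⟨_, ⟨_, rfl⟩, rfl⟩
      exact ((integrable_zero _ _ _).congr this.symm).integrableOn
  · intro D g _ α β h1 h2 h3 _ hg
    let G : ℝ → ℝ := fun x => ∫ t in α..x, g t
    let s : ℚ → ℝ := fun q => G q
    let P : MvPolynomial (Fin 1) ℝ := MvPolynomial.C (a + (b - a) / 3) +
      MvPolynomial.C ((b - a) / 3) *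
        (MvPolynomial.X 0 + MvPolynomial.C (φ (il (fun _ => false) (c s))))
    have r1 := InR.rat (a := a) (b := b) (f := ![k, U]) 1 (fun _ => Ioo a b) (fun _ => k) P 1
      (fun _ => InR.base 0)
    have r2 := InR.comp _ _ _ _ (InR.base (a := a) (b := b) (f := ![k, U]) 1) r1
    have hv : ∀ x, MvPolynomial.eval (fun _ => k x) P / MvPolynomial.eval (fun _ => k x)
        (1 : MvPolynomial (Fin 1) ℝ) = code (x, s) := by
      intro x
      simp only [P, code, ψ, k, map_add, map_mul, MvPolynomial.eval_C, MvPolynomial.eval_X,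
        map_one, div_one]
      rw [φ_il (e x) (c s)]
    refine ⟨_, _, r2, fun x hx => ?_, fun x hx => ?_⟩
    · have hx' : x ∈ Ioo a b := ⟨h1.trans_lt hx.1, hx.2.trans_le h3⟩
      refine ⟨⟨hx', fun _ => hx', by simp⟩, ?_⟩
      rw [hv]
      have p1 := φ_nonneg (il (e x) (c s))
      have p2 := φ_le (il (e x) (c s))
      constructor <;> simp only [code, ψ] <;> nlinarith
    · show U _ = _
      rw [hv]
      simp only [U]
      rw [hcode.extend_apply]
      have hc : ContinuousAt G x := by
        have hI : IntegrableOn g (uIcc α β) := by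
          rw [uIcc_of_le h2.le]; exact (integrableOn_Icc_iff_integrableOn_Ioo).2 hg
        have := intervalIntegral.continuousOn_primitive_interval hI
        rw [uIcc_of_le h2.le] at this
        exact this.continuousAt (Icc_mem_nhds hx.1 hx.2)
      have : NeBot (comap ((↑) : ℚ → ℝ) (𝓝 x)) :=
        Rat.isDenseEmbedding_coe_real.isDenseInducing.comap_nhds_neBot x
      exact (hc.tendsto.comp tendsto_comap).limUnder_eq

end Pool.Agent.Results.MP_4d4a97_an.Closed
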